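import Mathlib
import Pool.Agent.Helper992.Radon17
set_option autoImplicit false
open Finset

namespace Pool.Agent.Results.MP_620441_co.AffineHull

/-- Points of `d`-space. -/
abbrev Pt (d : ℕ) := Fin d → ℝ

/-- General position: no `d + 1` points of `S` lie on an affine hyperplane, that is, every
hyperplane `{x | w ⬝ᵥ x = b}` with `w ≠ 0` contains at most `d` points of `S`. -/
def GenPos (d : ℕ) (S : Finset (Pt d)) : Prop :=
  ∀ (w : Pt d) (b : ℝ), w ≠ 0 → {x | x ∈ S ∧ w ⬝ᵥ x = b}.ncard ≤ d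

/-- `A` and `B` are nonempty and disjoint and their convex hulls intersect. -/
def RadonPair {d : ℕ} (A B : Finset (Pt d)) : Prop :=
  A.Nonempty ∧ B.Nonempty ∧ (∀ x ∈ A, x ∉ B) ∧
    (convexHull ℝ (A : Set (Pt d)) ∩ convexHull ℝ (B : Set (Pt d))).Nonempty

/-- Minimal such pairs. -/
def PrimPair {d : ℕ} (A B : Finset (Pt d)) : Prop :=
  RadonPair A B ∧ ∀ A' ⊆ A, ∀ B' ⊆ B, RadonPair A' B' → A' = A ∧ B' = B

/-- `r_i(S)`: the number of unordered Radon partitions of `S` of type `{i, |S| - i}`. -/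
noncomputable def radonNum {d : ℕ} (S : Finset (Pt d)) (i : ℕ) : ℕ :=
  {q : Sym2 (Finset (Pt d)) | ∃ A B, q = s(A, B) ∧ RadonPair A B ∧ (A : Set (Pt d)) ∪ B = S ∧
    A.card = i}.ncard

/-- `P_i(S)`: the number of unordered primitive Radon partitions in `S` of type
`{i, d + 2 - i}`. -/
noncomputable def primNum {d : ℕ} (S : Finset (Pt d)) (i : ℕ) : ℕ :=
  {q : Sym2 (Finset (Pt d)) | ∃ A B, q = s(A, B) ∧ PrimPair A B ∧ A ⊆ S ∧ B ⊆ S ∧
    A.card = i ∧ A.card + B.card = d + 2}.ncard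

/-- The set `V(s, d)` of all vectors `(r(S), P(S))`, where `S` runs over the sets of `s` points
in general position in `d`-space.  Coordinate `j : Fin (s / 2)` of the first block is
`r_{j+1}(S)` and coordinate `i : Fin (d / 2 + 1)` of the second block is `P_{i+1}(S)`. -/
def V (s d : ℕ) : Set ((Fin (s / 2) → ℝ) × (Fin (d / 2 + 1) → ℝ)) :=
  {v | ∃ S : Finset (Pt d), S.card = s ∧ GenPos d S ∧
    v = (fun j : Fin (s / 2) => (radonNum S ((j : ℕ) + 1) : ℝ),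
      fun i : Fin (d / 2 + 1) => (primNum S ((i : ℕ) + 1) : ℝ))}

/-- The coordinate with number `i`, counted from one, of a vector; zero when out of range. -/
noncomputable def co {n : ℕ} (y : Fin n → ℝ) (i : ℕ) : ℝ :=
  if h : 1 ≤ i ∧ i ≤ n then y ⟨i - 1, by omega⟩ else 0

/-- The explicit system of linear equations.  With `r_{j+1} = v.1 j` and `P_{i+1} = v.2 i`:
* `∑ r_j = 2^(s-1) - ∑_{k ≤ d} C(s-1, k)`;
* `∑ P_i = C(s, d+2)`;
* `∑ j (s - j) r_j - ∑ i (d + 2 - i) P_i = C(s, 2) (2^(s-2) - ∑_{k ≤ d} C(s-2, k))`;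
* if `d` is odd and `s` is even, `∑ (-1)^j r_j = 0`;
* if `s = d + 2`, `r_j = P_j`;
* if `s = d + 3`, `2 r_j = P_{j-1} + P_j`, with the second summand doubled when `2 j = d + 2`;
* if `d = 1`, `r_j = C(s, j) - 2`, halved when `2 j = s`. -/
def Sys (s d : ℕ) (v : (Fin (s / 2) → ℝ) × (Fin (d / 2 + 1) → ℝ)) : Prop :=
  (∑ j, v.1 j = 2 ^ (s - 1) - ∑ k ∈ range (d + 1), ((s - 1).choose k : ℝ)) ∧
  (∑ i, v.2 i = (s.choose (d + 2) : ℝ)) ∧
  (∑ j : Fin (s / 2), ((j : ℝ) + 1) * ((s : ℝ) - (j + 1)) * v.1 j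
    - ∑ i : Fin (d / 2 + 1), ((i : ℝ) + 1) * ((d : ℝ) + 2 - (i + 1)) * v.2 i
    = (s.choose 2 : ℝ) * (2 ^ (s - 2) - ∑ k ∈ range (d + 1), ((s - 2).choose k : ℝ))) ∧
  (Odd d → Even s → ∑ j : Fin (s / 2), (-1) ^ ((j : ℕ) + 1) * v.1 j = 0) ∧
  (s = d + 2 → ∀ (j : Fin (s / 2)) (i : Fin (d / 2 + 1)), (j : ℕ) = i → v.1 j = v.2 i) ∧
  (s = d + 3 → ∀ j : Fin (s / 2), 2 * v.1 j =
    co v.2 j + (if 2 * ((j : ℕ) + 1) = d + 2 then 2 else 1) * co v.2 (j + 1)) ∧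
  (d = 1 → ∀ j : Fin (s / 2), v.1 j =
    (if 2 * ((j : ℕ) + 1) = s then 1 / 2 else 1) * ((s.choose (j + 1) : ℝ) - 2))

/-- For all `d ≥ 1` and `s ≥ d + 2` the affine hull of `V(s, d)` is exactly the solution set of
the explicit linear system `Sys s d`. -/
theorem result : ∀ d s : ℕ, 1 ≤ d → d + 2 ≤ s →
    (affineSpan ℝ (V s d) : Set ((Fin (s / 2) → ℝ) × (Fin (d / 2 + 1) → ℝ))) = {v | Sys s d v} :=
  fun d s hd hs => Pool.Agent.Helper992.Radon.final d s hd hs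

end Pool.Agent.Results.MP_620441_co.AffineHull
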